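import Pool.Agent.Helper57.M.C
import Mathlib.NumberTheory.Harmonic.ZetaAsymp

/-!
# The factor of the functional equation on the critical line (local Stirling formula)

`chi t = exp (-2 i th t)` with `zeta (1/2 + it) = chi t * conj (zeta (1/2 + it))`,
`|2 th' t - log (t / 2π)| ≤ 11 / t`, and
`‖chi (t - u) - chi t * exp (i u log (t / 2π))‖ ≤ 13 (1 + u²) / t`.
-/

namespace Pool.Agent.Helper44.HL

open Complex Set MeasureTheory Filter Topology
open Pool.Agent.Helper57.LH Pool.Agent.Helper57.US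
open scoped ComplexConjugate

/-- `Gammaℝ (1/2 + it)` -/
noncomputable def G (t : ℝ) : ℂ := Gammaℝ (1 / 2 + I * t)

/-- the factor in `zeta (1/2 + it) = chi t * conj (zeta (1/2 + it))` -/
noncomputable def chi (t : ℝ) : ℂ := conj (G t) / G t

lemma re_half (t : ℝ) : ((1 / 2 : ℂ) + I * t).re = 1 / 2 := by simp

lemma G_ne (t : ℝ) : G t ≠ 0 := Gammaℝ_ne_zero_of_re_pos (by rw [re_half]; norm_num)

lemma norm_chi (t : ℝ) : ‖chi t‖ = 1 := by
  unfold chi
  rw [norm_div, RCLike.norm_conj, div_self (norm_ne_zero_iff.mpr (G_ne t))]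

lemma Gammaℝ_conj (s : ℂ) : Gammaℝ (conj s) = conj (Gammaℝ s) := by
  rw [Gammaℝ_def, Gammaℝ_def, map_mul, ← Complex.Gamma_conj, map_div₀, map_ofNat]
  congr 1
  have h : (-(conj s) / 2 : ℂ) = conj (-s / 2) := by rw [map_div₀, map_neg, map_ofNat]
  rw [h, Complex.cpow_conj _ _ (by rw [Complex.arg_ofReal_of_nonneg Real.pi_pos.le]; exact Real.pi_pos.ne), Complex.conj_ofReal]

lemma conj_half (t : ℝ) : conj ((1 / 2 : ℂ) + I * t) = 1 - (1 / 2 + I * t) := by
  rw [map_add, map_mul, map_div₀, map_one, map_ofNat, Complex.conj_I, Complex.conj_ofReal]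
  ring

/-- the functional equation on the line -/
theorem zeta_eq (t : ℝ) : riemannZeta (1 / 2 + I * t) = chi t * conj (riemannZeta (1 / 2 + I * t)) := by
  have h0 : (1 / 2 + I * t : ℂ) ≠ 0 := by
    intro h; have := congrArg Complex.re h; rw [re_half] at this; norm_num at this
  have h0' : conj (1 / 2 + I * t : ℂ) ≠ 0 := (map_ne_zero _).mpr h0
  have h1 := riemannZeta_def_of_ne_zero h0
  have h2 := riemannZeta_def_of_ne_zero h0'
  rw [riemannZeta_conj, Gammaℝ_conj] at h2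
  have h3 : completedRiemannZeta (conj (1 / 2 + I * t : ℂ)) = completedRiemannZeta (1 / 2 + I * t) := by
    rw [conj_half, completedRiemannZeta_one_sub]
  rw [h3] at h2
  have hG := G_ne t
  have hG' : conj (G t) ≠ 0 := (map_ne_zero _).mpr hG
  rw [h2, h1]
  change completedRiemannZeta (1 / 2 + I * t) / G t = conj (G t) / G t * (completedRiemannZeta (1 / 2 + I * t) / conj (G t))
  field_simp

/-- `th' t` -/
noncomputable def thd (t : ℝ) : ℝ := 1 / 2 * ((digamma (1 / 4 + I * (t / 2))).re - Real.log Real.pi)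

lemma re_quarter (t : ℝ) : ((1 / 4 : ℂ) + I * (t / 2)).re = 1 / 4 := by
  simp

lemma hasDerivAt_Gam {s : ℂ} (hs : 0 < s.re) : HasDerivAt Complex.Gamma (Complex.Gamma s * digamma s) s := by
  have h := (Complex.differentiableAt_Gamma s (ne_neg_nat_re hs)).hasDerivAt
  have h2 : Complex.Gamma s ≠ 0 := Complex.Gamma_ne_zero_of_re_pos hs
  have h3 : Complex.Gamma s * digamma s = deriv Complex.Gamma s := by
    rw [digamma_def, logDeriv_apply]
    field_simp
  rw [h3]; exact h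

lemma continuous_digam : Continuous (fun t : ℝ => digamma (1 / 4 + I * (t / 2))) := by
  have hV : IsOpen {z : ℂ | 0 < z.re} := isOpen_lt continuous_const Complex.continuous_re
  have hGam : DifferentiableOn ℂ Complex.Gamma {z | 0 < z.re} := fun z hz =>
    (Complex.differentiableAt_Gamma z (ne_neg_nat_re hz)).differentiableWithinAt
  have hd : DifferentiableOn ℂ (deriv Complex.Gamma) {z | 0 < z.re} := hGam.deriv hV
  have hc : ContinuousOn digamma {z : ℂ | 0 < z.re} := by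
    have : ContinuousOn (fun z => deriv Complex.Gamma z / Complex.Gamma z) {z : ℂ | 0 < z.re} :=
      hd.continuousOn.div hGam.continuousOn (fun z hz => Complex.Gamma_ne_zero_of_re_pos hz)
    exact this
  refine hc.comp_continuous (by fun_prop) (fun t => ?_)
  show 0 < ((1 / 4 : ℂ) + I * (t / 2)).re
  rw [re_quarter]; norm_num

lemma continuous_thd : Continuous thd := by
  unfold thd
  exact continuous_const.mul ((Complex.continuous_re.comp continuous_digam).sub continuous_const)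

/-- the argument of `G` -/
noncomputable def th (t : ℝ) : ℝ := ∫ x in (0:ℝ)..t, thd x

lemma th_zero : th 0 = 0 := intervalIntegral.integral_same

lemma hasDerivAt_th (t : ℝ) : HasDerivAt th (thd t) t :=
  intervalIntegral.integral_hasDerivAt_right (continuous_thd.intervalIntegrable _ _)
    (continuous_thd.stronglyMeasurableAtFilter _ _) continuous_thd.continuousAt

lemma hasDerivAt_G (t : ℝ) :
    HasDerivAt G (G t * (I * (-(Real.log Real.pi) / 2 + 1 / 2 * digamma (1 / 4 + I * (t / 2))))) t := by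
  have hpi : (Real.pi : ℂ) ≠ 0 := by exact_mod_cast Real.pi_pos.ne'
  have e : ∀ x : ℝ, G x = Complex.exp (-(1 / 2 + I * x) / 2 * (Real.log Real.pi : ℝ)) * Complex.Gamma (1 / 4 + I * (x / 2)) := by
    intro x
    unfold G
    rw [Gammaℝ_def, Complex.cpow_def_of_ne_zero hpi, ← Complex.ofReal_log Real.pi_pos.le]
    congr 1
    · congr 1; ring
    · congr 1; ring
  have h1 : HasDerivAt (fun x : ℝ => (x : ℂ)) 1 t := Complex.ofRealCLM.hasDerivAt
  have h2 : HasDerivAt (fun x : ℝ => -(1 / 2 + I * (x:ℂ)) / 2 * (Real.log Real.pi : ℝ)) (-I / 2 * (Real.log Real.pi : ℝ)) t := by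
    have := ((((h1.const_mul I).const_add (1 / 2 : ℂ)).neg).div_const 2).mul_const ((Real.log Real.pi : ℝ) : ℂ)
    refine this.congr_deriv ?_
    ring
  have h3 : HasDerivAt (fun x : ℝ => (1 / 4 : ℂ) + I * ((x:ℂ) / 2)) (I / 2) t := by
    have := ((h1.div_const 2).const_mul I).const_add (1 / 4 : ℂ)
    refine this.congr_deriv ?_
    ring
  have h4 := (hasDerivAt_Gam (s := 1 / 4 + I * (t / 2)) (by rw [re_quarter]; norm_num)).comp t h3
  have h5 := (h2.cexp).mul h4
  have h6 : HasDerivAt G _ t := h5.congr_of_eventuallyEq (Eventually.of_forall fun x => e x)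
  refine h6.congr_deriv ?_
  rw [e t]
  simp only [Function.comp]
  ring

lemma conj_hasDerivAt {f : ℝ → ℂ} {f' : ℂ} {t : ℝ} (h : HasDerivAt f f' t) : HasDerivAt (fun x => conj (f x)) (conj f') t := by
  exact h.star

lemma hasDerivAt_chi (t : ℝ) : HasDerivAt chi (chi t * (-2 * I * thd t)) t := by
  have h1 := hasDerivAt_G t
  have h2 := conj_hasDerivAt h1
  have h3 := h2.div h1 (G_ne t)
  refine h3.congr_deriv ?_
  have hG := G_ne t
  unfold chi
  set w : ℂ := -(Real.log Real.pi) / 2 + 1 / 2 * digamma (1 / 4 + I * (t / 2)) with hw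
  have hre : w.re = thd t := by
    rw [hw]
    unfold thd
    simp
    ring
  have hs : w + conj w = 2 * (thd t : ℂ) := by
    rw [← hre]
    exact Complex.add_conj w ▸ by push_cast; ring
  rw [map_mul, map_mul, Complex.conj_I]
  clear_value w
  field_simp
  linear_combination (-(conj (G t))) * hs

/-- `chi = exp (-2 i th)` -/
theorem chi_eq (t : ℝ) : chi t = Complex.exp (-2 * I * th t) := by
  have hd : ∀ x : ℝ, HasDerivAt (fun x : ℝ => chi x * Complex.exp (2 * I * th x)) 0 x := by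
    intro x
    have h1 : HasDerivAt (fun x : ℝ => (2 * I * (th x : ℂ))) (2 * I * thd x) x :=
      ((hasDerivAt_th x).ofReal_comp).const_mul _
    refine ((hasDerivAt_chi x).mul h1.cexp).congr_deriv ?_
    ring
  have hc : chi t * Complex.exp (2 * I * th t) = chi 0 * Complex.exp (2 * I * th 0) :=
    is_const_of_deriv_eq_zero (fun x => (hd x).differentiableAt) (fun x => (hd x).deriv) t 0
  have h0 : chi 0 = 1 := by
    unfold chi
    have : conj (G 0) = G 0 := by
      unfold G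
      rw [← Gammaℝ_conj]
      congr 1
      rw [conj_half]
      push_cast
      ring
    rw [this, div_self (G_ne 0)]
  rw [th_zero, h0] at hc
  simp at hc
  have h2 : Complex.exp (2 * I * th t) ≠ 0 := Complex.exp_ne_zero _
  rw [show (-2 * I * th t : ℂ) = -(2 * I * th t) by ring, Complex.exp_neg]
  exact eq_inv_of_mul_eq_one_left hc

/-- the terms of the two series -/
lemma term_re (t : ℝ) (n : ℕ) : ((1 / ((n:ℂ) + 1) - 1 / ((n:ℂ) + ((5 / 4 : ℂ) + I * (t / 2)))) : ℂ).re =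
    1 / ((n:ℝ) + 1) - ((n:ℝ) + 5 / 4) / (((n:ℝ) + 5 / 4) ^ 2 + (t / 2) ^ 2) := by
  have e1 : ((1 / ((n:ℂ) + 1)) : ℂ) = ((1 / ((n:ℝ) + 1) : ℝ) : ℂ) := by push_cast; rfl
  have e2 : ((n:ℂ) + ((5 / 4 : ℂ) + I * (t / 2))) = (((n:ℝ) + 5 / 4 : ℝ) : ℂ) + ((t / 2 : ℝ) : ℂ) * I := by
    push_cast; ring
  rw [e1, e2, Complex.sub_re, Complex.ofReal_re, one_div (((_ : ℝ) : ℂ) + _), Complex.inv_re, Complex.normSq_add_mul_I]
  simp

lemma term_cmp {t : ℝ} (ht : 0 < t) (n : ℕ) :
    |(1 / ((n:ℝ) + 1) - ((n:ℝ) + 5 / 4) / (((n:ℝ) + 5 / 4) ^ 2 + (t / 2) ^ 2)) - Dn n t| ≤ 1 / 4 * (1 / ((n:ℝ) ^ 2 + (t / 2) ^ 2)) := by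
  have hn0 : (0:ℝ) ≤ n := Nat.cast_nonneg n
  unfold Dn
  set w := t / 2 with hw
  have hw0 : 0 < w := by rw [hw]; linarith
  have ht2 : t = 2 * w := by rw [hw]; ring
  rw [ht2]
  set k := (n:ℝ) + 1 with hk
  have hk1 : (n:ℝ) + 5 / 4 = k + 1 / 4 := by rw [hk]; ring
  have hk0 : 0 < k := by rw [hk]; linarith
  rw [hk1]
  have e : (1 / k - (k + 1 / 4) / ((k + 1 / 4) ^ 2 + w ^ 2)) - (1 / k - 2 * (2 * k / ((2 * k) ^ 2 + (2 * w) ^ 2))) =
      1 / 4 * ((k * (k + 1 / 4) - w ^ 2) / (((k + 1 / 4) ^ 2 + w ^ 2) * (k ^ 2 + w ^ 2))) := by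
    field_simp
    ring
  rw [e, abs_mul, abs_of_pos (by norm_num : (0:ℝ) < 1 / 4), abs_div, abs_of_pos (by positivity : 0 < ((k + 1 / 4) ^ 2 + w ^ 2) * (k ^ 2 + w ^ 2))]
  have h4 : |k * (k + 1 / 4) - w ^ 2| ≤ (k + 1 / 4) ^ 2 + w ^ 2 := by
    rw [abs_le]
    constructor <;> nlinarith [sq_nonneg w, mul_pos hk0 hk0]
  have h5 : (n:ℝ) ^ 2 + w ^ 2 ≤ k ^ 2 + w ^ 2 := by
    rw [hk]; nlinarith
  have hn2 : 0 < (n:ℝ) ^ 2 + w ^ 2 := by positivity
  calc 1 / 4 * (|k * (k + 1 / 4) - w ^ 2| / (((k + 1 / 4) ^ 2 + w ^ 2) * (k ^ 2 + w ^ 2)))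
      ≤ 1 / 4 * (((k + 1 / 4) ^ 2 + w ^ 2) / (((k + 1 / 4) ^ 2 + w ^ 2) * ((n:ℝ) ^ 2 + w ^ 2))) := by gcongr
    _ = _ := by field_simp

/-- `2 th' t = log (t / 2π) + O(1 / t)` -/
theorem thd_asym {t : ℝ} (ht : 2 ≤ t) : |2 * thd t - Real.log (t / (2 * Real.pi))| ≤ 11 / t := by
  have ht0 : 0 < t := by linarith
  have hpi := Real.pi_pos
  have hs54 : ((5 / 4 : ℂ) + I * (t / 2)).re = 5 / 4 := by simp
  have h0 := digamma_hasSum (s := (5 / 4 : ℂ) + I * (t / 2)) (by rw [hs54]; norm_num)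
  have h1 := Complex.hasSum_re h0
  simp only [term_re] at h1
  have h2 : digamma ((5 / 4 : ℂ) + I * (t / 2)) = digamma (1 / 4 + I * (t / 2)) + 1 / (1 / 4 + I * (t / 2)) := by
    have := digamma_add_nat (s := 1 / 4 + I * (t / 2)) (by rw [re_quarter]; norm_num) 1
    simp only [Finset.sum_range_one, Nat.cast_zero, zero_add, Nat.cast_one] at this
    rw [← this]; congr 1; ring
  have h3 : |((1 / (1 / 4 + I * (t / 2)) : ℂ)).re| ≤ 1 / t := by
    have e2 : ((1 / 4 : ℂ) + I * (t / 2)) = ((1 / 4 : ℝ) : ℂ) + ((t / 2 : ℝ) : ℂ) * I := by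
      push_cast; ring
    rw [e2, one_div (((_ : ℝ) : ℂ) + _), Complex.inv_re, Complex.normSq_add_mul_I]
    have e3 : (((1 / 4 : ℝ) : ℂ) + ((t / 2 : ℝ) : ℂ) * I).re = 1 / 4 := by simp
    rw [e3, abs_of_nonneg (by positivity), div_le_div_iff₀ (by positivity) ht0]
    nlinarith
  set Tn : ℕ → ℝ := fun n => 1 / ((n:ℝ) + 1) - ((n:ℝ) + 5 / 4) / (((n:ℝ) + 5 / 4) ^ 2 + (t / 2) ^ 2) with hTn
  have hTs : Summable Tn := h1.summable
  have hs0 : ∀ K : ℕ, ∑ n ∈ Finset.range K, 1 / 4 * (1 / ((n:ℝ) ^ 2 + (t / 2) ^ 2)) ≤ 2 / t := by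
    intro K
    rw [← Finset.mul_sum]
    have := sum_inv_add_sq (w := t / 2) (by linarith) K
    calc 1 / 4 * ∑ n ∈ Finset.range K, 1 / ((n:ℝ) ^ 2 + (t / 2) ^ 2) ≤ 1 / 4 * (4 / (t / 2)) := by gcongr
      _ = _ := by field_simp
  have hs : Summable (fun n : ℕ => 1 / 4 * (1 / ((n:ℝ) ^ 2 + (t / 2) ^ 2))) :=
    summable_of_sum_range_le (fun n => by positivity) hs0
  have hs2 : ∑' n : ℕ, 1 / 4 * (1 / ((n:ℝ) ^ 2 + (t / 2) ^ 2)) ≤ 2 / t := Real.tsum_le_of_sum_range_le (fun n => by positivity) hs0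
  have h4 : |∑' n, Tn n - ∑' n, Dn n t| ≤ 2 / t := by
    rw [← hTs.tsum_sub (Dn_summable t), ← Real.norm_eq_abs]
    refine (tsum_of_norm_bounded hs.hasSum (fun n => ?_)).trans hs2
    rw [Real.norm_eq_abs]; exact term_cmp ht0 n
  have h5 := Dn_sum_asym ht
  have h6 : ∑' n, Tn n = (digamma (1 / 4 + I * (t / 2))).re + ((1 / (1 / 4 + I * (t / 2)) : ℂ)).re + Real.eulerMascheroniConstant := by
    rw [h1.tsum_eq, h2, Complex.add_re, Complex.add_re, Complex.ofReal_re]
  have hlog : Real.log (t / (2 * Real.pi)) = Real.log (t / 2) - Real.log Real.pi := by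
    rw [← Real.log_div (by positivity) hpi.ne']
    congr 1
    field_simp
  have h7 : 2 * thd t = (digamma (1 / 4 + I * (t / 2))).re - Real.log Real.pi := by unfold thd; ring
  rw [h7, hlog]
  rw [h6] at h4
  rw [abs_le] at *
  have e1 : (2:ℝ) / t = 2 * (1 / t) := by ring
  have e2 : (8:ℝ) / t = 8 * (1 / t) := by ring
  have e3 : (11:ℝ) / t = 11 * (1 / t) := by ring
  rw [e1] at h4
  rw [e2] at h5
  rw [e3]
  constructor <;> linarith [h3.1, h3.2, h4.1, h4.2, h5.1, h5.2]

/-- local form of the argument -/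
theorem th_local {t u : ℝ} (ht : 4 ≤ t) (hu : |u| ≤ t / 2) :
    |2 * th (t - u) - 2 * th t + u * Real.log (t / (2 * Real.pi))| ≤ (22 * |u| + 2 * u ^ 2) / t := by
  have ht0 : 0 < t := by linarith
  have hpi := Real.pi_pos
  set h : ℝ → ℝ := fun v => 2 * th (t - v) - 2 * th t + v * Real.log (t / (2 * Real.pi)) with hh
  have hd : ∀ v : ℝ, HasDerivAt h (-(2 * thd (t - v)) + Real.log (t / (2 * Real.pi))) v := by
    intro v
    have h1 : HasDerivAt (fun v : ℝ => t - v) (-1) v := by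
      simpa using (hasDerivAt_id v).const_sub t
    have h2 := (((hasDerivAt_th (t - v)).comp v h1).const_mul 2).sub_const (2 * th t)
    have h3 := h2.add ((hasDerivAt_id v).mul_const (Real.log (t / (2 * Real.pi))))
    refine h3.congr_deriv ?_
    ring
  have hb : ∀ v : ℝ, |v| ≤ |u| → ‖-(2 * thd (t - v)) + Real.log (t / (2 * Real.pi))‖ ≤ (22 + 2 * |u|) / t := by
    intro v hv
    have hv2 : |v| ≤ t / 2 := hv.trans hu
    have hv3 := abs_le.mp hv2
    have h1 : 2 ≤ t - v := by linarith [hv3.2]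
    have h2 := thd_asym h1
    have h3 : (11:ℝ) / (t - v) ≤ 22 / t := by
      rw [div_le_div_iff₀ (by linarith) ht0]
      linarith [hv3.2]
    have h4 : Real.log ((t - v) / (2 * Real.pi)) = Real.log (t / (2 * Real.pi)) + Real.log (1 - v / t) := by
      rw [← Real.log_mul (by positivity) (by
        have : v / t ≤ 1 / 2 := by rw [div_le_div_iff₀ ht0 (by norm_num)]; linarith [hv3.2]
        linarith)]
      congr 1
      field_simp
    have h5 : |Real.log (1 - v / t)| ≤ 2 * |v| / t := by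
      set w := v / t with hw
      have hw1 : |w| = |v| / t := by rw [hw, abs_div, abs_of_pos ht0]
      have hw2 : |w| ≤ 1 / 2 := by rw [hw1, div_le_div_iff₀ ht0 (by norm_num)]; linarith
      rw [mul_div_assoc, ← hw1]
      have hw3 := abs_le.mp hw2
      have hpos : 0 < 1 - w := by linarith [hw3.2]
      rw [abs_le]
      constructor
      · have h6 := Real.one_sub_inv_le_log_of_pos hpos
        have h7 : 1 - (1 - w)⁻¹ = -(w / (1 - w)) := by field_simp; ring
        have h8 : w / (1 - w) ≤ 2 * |w| := by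
          rw [div_le_iff₀ hpos]
          have := le_abs_self w
          nlinarith [abs_nonneg w]
        linarith
      · have h6 := Real.log_le_sub_one_of_pos hpos
        have := neg_abs_le w
        linarith [abs_nonneg w]
    rw [Real.norm_eq_abs]
    rw [h4] at h2
    have h6 : 2 * |v| / t ≤ 2 * |u| / t := by gcongr
    have h9 : (22 + 2 * |u|) / t = 22 / t + 2 * |u| / t := by ring
    rw [h9, abs_le]
    have g1 := abs_le.mp h2
    have g2 := abs_le.mp h5
    constructor <;> linarith [g1.1, g1.2, g2.1, g2.2]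
  have h0 : h 0 = 0 := by rw [hh]; simp
  have key := (convex_Icc (-|u|) |u|).norm_image_sub_le_of_norm_hasDerivWithin_le (f := h)
    (f' := fun v => -(2 * thd (t - v)) + Real.log (t / (2 * Real.pi))) (C := (22 + 2 * |u|) / t)
    (fun x _ => (hd x).hasDerivWithinAt) (fun x hx => hb x (abs_le.mpr hx))
    (x := 0) (y := u) ⟨by linarith [abs_nonneg u], abs_nonneg u⟩ (abs_le.mp le_rfl)
  rw [h0, sub_zero, sub_zero, Real.norm_eq_abs, Real.norm_eq_abs] at key
  refine key.trans (le_of_eq ?_)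
  have : u ^ 2 = |u| * |u| := by rw [← sq, sq_abs]
  rw [this]
  ring

/-- **local Stirling formula** for the factor of the functional equation -/
theorem chi_local {t : ℝ} (ht : 0 < t) (u : ℝ) :
    ‖chi (t - u) - chi t * Complex.exp (I * (u * Real.log (t / (2 * Real.pi))))‖ ≤ 13 * (1 + u ^ 2) / t := by
  have hn1 : ‖Complex.exp (I * (u * Real.log (t / (2 * Real.pi))))‖ = 1 := by
    rw [mul_comm, ← Complex.ofReal_mul, Complex.norm_exp_ofReal_mul_I]
  have triv : ‖chi (t - u) - chi t * Complex.exp (I * (u * Real.log (t / (2 * Real.pi))))‖ ≤ 2 := by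
    refine (norm_sub_le _ _).trans ?_
    rw [norm_mul, norm_chi, norm_chi, hn1]; norm_num
  have hu2 : 2 * |u| ≤ 1 + u ^ 2 := by
    have : u ^ 2 = |u| ^ 2 := (sq_abs u).symm
    rw [this]; nlinarith [sq_nonneg (|u| - 1)]
  rcases lt_or_ge t 4 with h4 | h4
  · refine triv.trans ?_
    rw [le_div_iff₀ ht]
    nlinarith [sq_nonneg u]
  rcases lt_or_ge (t / 2) |u| with h | h
  · refine triv.trans ?_
    rw [le_div_iff₀ ht]
    nlinarith [sq_nonneg u]
  have h1 := th_local h4 h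
  set r := 2 * th (t - u) - 2 * th t + u * Real.log (t / (2 * Real.pi)) with hr
  have e : chi (t - u) - chi t * Complex.exp (I * (u * Real.log (t / (2 * Real.pi)))) =
      chi t * Complex.exp (I * (u * Real.log (t / (2 * Real.pi)))) * (Complex.exp (((-r : ℝ) : ℂ) * I) - 1) := by
    rw [chi_eq, chi_eq, mul_sub, mul_one, ← Complex.exp_add, ← Complex.exp_add]
    congr 2
    rw [hr]
    push_cast
    ring
  rw [e, norm_mul, norm_mul, norm_chi, hn1, one_mul, one_mul]
  have h2 : ‖Complex.exp (((-r : ℝ) : ℂ) * I) - 1‖ ≤ |r| := by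
    have := Real.norm_exp_I_mul_ofReal_sub_one_le (x := -r)
    rw [mul_comm] at this
    simpa using this
  refine h2.trans (h1.trans ?_)
  rw [div_le_div_iff_of_pos_right ht]
  nlinarith [sq_nonneg u]

/-- the function `Z` is real: `exp (i th) zeta (1/2 + it)` is fixed by conjugation -/
theorem conj_Z (t : ℝ) : conj (Complex.exp (I * th t) * riemannZeta (1 / 2 + I * t)) = Complex.exp (I * th t) * riemannZeta (1 / 2 + I * t) := by
  have h := zeta_eq t
  rw [chi_eq] at h
  rw [map_mul, ← Complex.exp_conj, map_mul, Complex.conj_I, Complex.conj_ofReal]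
  conv_rhs => rw [h]
  rw [← mul_assoc, ← Complex.exp_add]
  congr 2
  ring

end Pool.Agent.Helper44.HL
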