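import Pool.Agent.Helper9.HL.Ker

/-!
# A nonnegative even kernel with a smooth even multiplier of compact support
-/

namespace Pool.Agent.Helper44.HL

open Complex Set MeasureTheory Filter Topology
open scoped ComplexConjugate FourierTransform SchwartzMap ContDiff Convolution
open Pool.Agent.HL9

noncomputable section

/-- a bump function around `0` -/
def bp : ContDiffBump (0:ℝ) := ⟨1, 2, one_pos, by norm_num⟩

/-- the bump function with complex values -/
def bc (x : ℝ) : ℂ := ((bp x : ℝ) : ℂ)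

lemma bc_cd : ContDiff ℝ ∞ bc := Complex.ofRealCLM.contDiff.comp bp.contDiff

lemma bc_cs : HasCompactSupport bc := by
  have h := bp.hasCompactSupport
  exact h.comp_left (g := fun x : ℝ => (x : ℂ)) (by simp)

/-- the Schwartz function -/
def bS : 𝓢(ℝ, ℂ) := bc_cs.toSchwartzMap bc_cd

lemma bS_apply (x : ℝ) : bS x = ((bp x : ℝ) : ℂ) := rfl

lemma bp_neg (x : ℝ) : bp (-x) = bp x := bp.neg x

lemma bp_zero_of (x : ℝ) (hx : 2 ≤ |x|) : bp x = 0 := by
  apply bp.zero_of_le_dist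
  rw [Real.dist_eq, sub_zero]
  exact hx

/-- autocorrelation -/
def Q0 : 𝓢(ℝ, ℂ) := SchwartzMap.convolution (ContinuousLinearMap.mul ℂ ℂ) bS bS

/-- autocorrelation, real -/
def q0 (y : ℝ) : ℝ := ∫ x : ℝ, bp x * bp (y - x)

lemma Q0_apply (y : ℝ) : Q0 y = ((q0 y : ℝ) : ℂ) := by
  unfold Q0 q0
  rw [SchwartzMap.convolution_apply, MeasureTheory.convolution_def, ← integral_complex_ofReal]
  apply integral_congr_ae
  filter_upwards with x
  rw [ContinuousLinearMap.mul_apply', bS_apply, bS_apply, Complex.ofReal_mul]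

lemma fourier_Q0 (x : ℝ) : (𝓕 Q0) x = (𝓕 bS) x * (𝓕 bS) x := by
  unfold Q0
  rw [SchwartzMap.fourier_convolution, SchwartzMap.pairing_apply_apply, ContinuousLinearMap.mul_apply']

/-- the Fourier transform of the bump is real -/
lemma fourier_bS_real (x : ℝ) : conj ((𝓕 bS) x) = (𝓕 bS) x := by
  rw [SchwartzMap.fourier_coe, Real.fourier_eq', ← integral_conj, ← integral_neg_eq_self]
  apply integral_congr_ae
  filter_upwards with y
  simp only [smul_eq_mul, map_mul, bS_apply, bp_neg, Complex.conj_ofReal, ← Complex.exp_conj, Complex.conj_I, map_neg,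
    RCLike.inner_apply, conj_trivial]
  congr 2
  push_cast
  ring

lemma fourier_bS_neg (x : ℝ) : (𝓕 bS) (-x) = (𝓕 bS) x := by
  rw [SchwartzMap.fourier_coe, Real.fourier_eq', Real.fourier_eq', ← integral_neg_eq_self]
  apply integral_congr_ae
  filter_upwards with y
  simp only [smul_eq_mul, bS_apply, bp_neg, RCLike.inner_apply, conj_trivial]
  congr 2
  push_cast
  ring

lemma q0_zero_pos : 0 < q0 0 := by
  unfold q0
  have e : ∀ x : ℝ, bp x * bp (0 - x) = bp x ^ 2 := by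
    intro x; rw [zero_sub, bp_neg, sq]
  simp only [e]
  have hc : Continuous (fun x => bp x ^ 2) := bp.continuous.pow 2
  have hcs : HasCompactSupport (fun x => bp x ^ 2) := by
    have h := bp.hasCompactSupport
    exact h.comp_left (g := fun x : ℝ => x ^ 2) (by simp)
  apply (integral_pos_iff_support_of_nonneg (fun x => sq_nonneg _) (hc.integrable_of_hasCompactSupport hcs)).mpr
  refine lt_of_lt_of_le ?_ (measure_mono (s := Ioo (-1:ℝ) 1) ?_)
  · rw [Real.volume_Ioo]; norm_num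
  · intro x hx
    rw [Function.mem_support]
    have : bp x = 1 := by
      apply bp.one_of_mem_closedBall
      rw [mem_closedBall_zero_iff, Real.norm_eq_abs]
      exact (abs_lt.mpr hx).le
    rw [this]; norm_num

lemma q0_supp {y : ℝ} (hy : 4 ≤ |y|) : q0 y = 0 := by
  unfold q0
  refine integral_eq_zero_of_ae (Eventually.of_forall fun x => ?_)
  show bp x * bp (y - x) = 0
  rcases le_or_gt 2 |x| with h | h
  · rw [bp_zero_of x h, zero_mul]
  · rw [bp_zero_of (y - x) (by have := abs_sub_abs_le_abs_sub y x; linarith), mul_zero]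

/-- the multiplier as a Schwartz function -/
def Qs : 𝓢(ℝ, ℂ) := ((1 / q0 0 : ℝ) : ℂ) • Q0

/-- the multiplier -/
def qq (y : ℝ) : ℝ := q0 y / q0 0

/-- the kernel -/
def kk (u : ℝ) : ℝ := 1 / (2 * Real.pi * q0 0) * ((𝓕 bS) (u / (2 * Real.pi))).re ^ 2

lemma Qs_apply (y : ℝ) : Qs y = ((qq y : ℝ) : ℂ) := by
  unfold Qs qq
  rw [smul_apply, Q0_apply, smul_eq_mul]
  push_cast
  ring

lemma fourier_Qs (x : ℝ) : (𝓕 Qs) x = ((1 / q0 0 : ℝ) : ℂ) * ((𝓕 bS) x * (𝓕 bS) x) := by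
  unfold Qs
  rw [FourierTransform.fourier_smul, smul_apply, fourier_Q0, smul_eq_mul]

lemma Kq_Qs (u : ℝ) : Kq Qs u = ((kk u : ℝ) : ℂ) := by
  unfold Kq kk
  rw [fourier_Qs]
  have h := fourier_bS_real (u / (2 * Real.pi))
  have h2 := Complex.conj_eq_iff_re.mp h
  conv_lhs => rw [← h2]
  push_cast
  field_simp

lemma kk_nonneg (u : ℝ) : 0 ≤ kk u := by
  unfold kk
  have h1 := q0_zero_pos
  have h2 := Real.pi_pos
  positivity

lemma kk_neg (u : ℝ) : kk (-u) = kk u := by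
  unfold kk
  rw [neg_div, fourier_bS_neg]

lemma kk_cont : Continuous kk := by
  unfold kk
  exact continuous_const.mul ((Complex.continuous_re.comp ((𝓕 bS).continuous.comp (continuous_id.div_const _))).pow 2)

lemma kk_pow_int (m : ℕ) : Integrable (fun u : ℝ => |u| ^ m * kk u) := by
  refine (integrable_pow_mul_Kq Qs m).congr (Eventually.of_forall fun u => ?_)
  simp only [Kq_Qs, Complex.norm_real, Real.norm_of_nonneg (kk_nonneg u)]

lemma kk_int (m : ℕ) : Integrable (fun u : ℝ => (1 + |u|) ^ m * kk u) := by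
  have h := ((kk_pow_int 0).add (kk_pow_int m)).const_mul (2 ^ (m - 1))
  refine h.mono' ?_ (Eventually.of_forall fun u => ?_)
  · exact ((continuous_const.add continuous_abs).pow m |>.mul kk_cont).aestronglyMeasurable
  · rw [Real.norm_of_nonneg (mul_nonneg (by positivity) (kk_nonneg u))]
    have h1 := add_pow_le (zero_le_one (α := ℝ)) (abs_nonneg u) m
    rw [one_pow] at h1
    calc (1 + |u|) ^ m * kk u ≤ (2 ^ (m - 1) * (1 + |u| ^ m)) * kk u := mul_le_mul_of_nonneg_right h1 (kk_nonneg u)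
      _ = _ := by simp only [Pi.add_apply, pow_zero]; ring

lemma kk_fourier (y : ℝ) : ∫ u : ℝ, ((kk u : ℝ) : ℂ) * cexp (I * u * y) = ((qq y : ℝ) : ℂ) := by
  rw [← Qs_apply, ← integral_Kq_mul_exp Qs y]
  simp only [Kq_Qs]

lemma kk_eq (u : ℝ) : ((kk u : ℝ) : ℂ) = ((1 / (2 * Real.pi) : ℝ) : ℂ) * ∫ y : ℝ, cexp (-(I * u * y)) * ((qq y : ℝ) : ℂ) := by
  rw [← Kq_Qs, Kq_eq]
  simp only [Qs_apply]

lemma qq_zero : qq 0 = 1 := div_self q0_zero_pos.ne'

lemma qq_supp {y : ℝ} (hy : 4 ≤ |y|) : qq y = 0 := by unfold qq; rw [q0_supp hy, zero_div]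

lemma qq_neg (y : ℝ) : qq (-y) = qq y := by
  have h := kk_fourier (-y)
  rw [← integral_neg_eq_self] at h
  have h2 := kk_fourier y
  have e : ((qq (-y) : ℝ) : ℂ) = ((qq y : ℝ) : ℂ) := by
    rw [← h, ← h2]
    apply integral_congr_ae
    filter_upwards with u
    rw [kk_neg]
    congr 2
    push_cast
    ring
  exact_mod_cast e

lemma kk_integrable : Integrable kk := by
  have := kk_pow_int 0
  simpa using this

lemma kk_integral : ∫ u : ℝ, kk u = 1 := by
  have h := kk_fourier 0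
  rw [qq_zero] at h
  have e : ∫ u : ℝ, ((kk u : ℝ) : ℂ) * cexp (I * u * (0:ℝ)) = ((∫ u : ℝ, kk u : ℝ) : ℂ) := by
    rw [← integral_complex_ofReal]
    apply integral_congr_ae
    filter_upwards with u
    simp
  rw [e] at h
  exact_mod_cast h

lemma qq_abs (y : ℝ) : |qq y| ≤ 1 := by
  have h := kk_fourier y
  rw [← Real.norm_eq_abs, ← Complex.norm_real, ← h, ← kk_integral]
  refine (norm_integral_le_integral_norm _).trans (le_of_eq ?_)
  apply integral_congr_ae
  filter_upwards with u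
  rw [norm_mul, Complex.norm_real, Real.norm_of_nonneg (kk_nonneg u)]
  have : ‖cexp (I * u * y)‖ = 1 := by
    rw [show I * (u:ℂ) * y = ((u * y : ℝ) : ℂ) * I by push_cast; ring, Complex.norm_exp_ofReal_mul_I]
  rw [this, mul_one]

lemma qq_cd : ContDiff ℝ ∞ qq := by
  have h : ContDiff ℝ ∞ (fun y => (Qs y).re) := Complex.reCLM.contDiff.comp (Qs.smooth ⊤)
  have e : (fun y => (Qs y).re) = qq := by
    funext y; rw [Qs_apply, Complex.ofReal_re]
  rwa [e] at h

/-- **N2**: the kernel -/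
theorem kernel_exists : ∃ (k q : ℝ → ℝ) (B : ℝ), 0 < B ∧ (∀ u, 0 ≤ k u) ∧ Continuous k ∧ (∀ u, k (-u) = k u) ∧
    (∀ m : ℕ, Integrable (fun u : ℝ => (1 + |u|) ^ m * k u)) ∧ ContDiff ℝ ∞ q ∧ (∀ y, q (-y) = q y) ∧ (∀ y, |q y| ≤ 1) ∧
    q 0 = 1 ∧ (∀ y, B ≤ |y| → q y = 0) ∧ (∀ y : ℝ, ∫ u : ℝ, ((k u : ℝ) : ℂ) * cexp (I * u * y) = ((q y : ℝ) : ℂ)) ∧
    (∀ u : ℝ, ((k u : ℝ) : ℂ) = ((1 / (2 * Real.pi) : ℝ) : ℂ) * ∫ y : ℝ, cexp (-(I * u * y)) * ((q y : ℝ) : ℂ)) ∧
    (∫ u : ℝ, k u = 1) ∧ ∃ Q : 𝓢(ℝ, ℂ), (∀ y, Q y = ((q y : ℝ) : ℂ)) ∧ ∀ u, Kq Q u = ((k u : ℝ) : ℂ) :=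
  ⟨kk, qq, 4, by norm_num, kk_nonneg, kk_cont, kk_neg, kk_int, qq_cd, qq_neg, qq_abs, qq_zero, fun _ h => qq_supp h,
    kk_fourier, kk_eq, kk_integral, Qs, Qs_apply, Kq_Qs⟩

end

end Pool.Agent.Helper44.HL
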