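import Pool.Agent.Helper44.HL.Chi

/-!
# The argument function `th` (form for all shifts)
-/

namespace Pool.Agent.Helper44.HL

open Complex Set MeasureTheory Filter Topology
open scoped ComplexConjugate

lemma continuous_th : Continuous th := continuous_iff_continuousAt.mpr fun t => (hasDerivAt_th t).continuousAt

lemma continuous_chi : Continuous chi := continuous_iff_continuousAt.mpr fun t => (hasDerivAt_chi t).continuousAt

lemma norm_exp_sub_exp (a b : ℝ) : ‖Complex.exp (I * a) - Complex.exp (I * b)‖ ≤ |a - b| := by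
  have e : Complex.exp (I * a) - Complex.exp (I * b) = Complex.exp (I * b) * (Complex.exp (I * ((a - b : ℝ) : ℂ)) - 1) := by
    rw [mul_sub, mul_one, ← Complex.exp_add]
    congr 2
    push_cast
    ring
  rw [e, norm_mul]
  have h1 : ‖Complex.exp (I * b)‖ = 1 := by rw [mul_comm, Complex.norm_exp_ofReal_mul_I]
  rw [h1, one_mul]
  exact Real.norm_exp_I_mul_ofReal_sub_one_le

/-- the argument, all shifts -/
theorem th_shift {t : ℝ} (ht : 0 < t) (u : ℝ) :
    ‖Complex.exp (I * ((th (t + u) - th t : ℝ) : ℂ)) - Complex.exp (I * ((u / 2 * Real.log (t / (2 * Real.pi)) : ℝ) : ℂ))‖ ≤ 13 * (1 + u ^ 2) / t := by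
  have triv : ‖Complex.exp (I * ((th (t + u) - th t : ℝ) : ℂ)) - Complex.exp (I * ((u / 2 * Real.log (t / (2 * Real.pi)) : ℝ) : ℂ))‖ ≤ 2 := by
    refine (norm_sub_le _ _).trans ?_
    rw [mul_comm, Complex.norm_exp_ofReal_mul_I, mul_comm, Complex.norm_exp_ofReal_mul_I]; norm_num
  have hu2 : 2 * |u| ≤ 1 + u ^ 2 := by
    have : u ^ 2 = |u| ^ 2 := (sq_abs u).symm
    rw [this]; nlinarith [sq_nonneg (|u| - 1)]
  rcases lt_or_ge t 4 with h4 | h4
  · refine triv.trans ?_
    rw [le_div_iff₀ ht]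
    nlinarith [sq_nonneg u]
  rcases lt_or_ge (t / 2) |u| with h | h
  · refine triv.trans ?_
    rw [le_div_iff₀ ht]
    nlinarith [sq_nonneg u]
  have h1 := th_local h4 (u := -u) (by rwa [abs_neg])
  rw [sub_neg_eq_add, abs_neg, neg_sq] at h1
  refine (norm_exp_sub_exp _ _).trans ?_
  have e : (th (t + u) - th t - u / 2 * Real.log (t / (2 * Real.pi))) = (2 * th (t + u) - 2 * th t + -u * Real.log (t / (2 * Real.pi))) / 2 := by ring
  rw [e, abs_div, abs_of_pos (by norm_num : (0:ℝ) < 2), div_le_iff₀ (by norm_num)]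
  refine h1.trans ?_
  rw [div_mul_eq_mul_div, div_le_div_iff_of_pos_right ht]
  nlinarith [sq_nonneg u]

/-- the imaginary part of `exp (i th) zeta (1/2 + it)` vanishes -/
theorem Z_im (t : ℝ) : (Complex.exp (I * th t) * riemannZeta (1 / 2 + I * t)).im = 0 :=
  Complex.conj_eq_iff_im.mp (conj_Z t)

end Pool.Agent.Helper44.HL
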