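import Pool.Agent.Helper49.HG.Cv
import Pool.Agent.Helper69.HG.Stm
import Pool.Agent.Helper44.HL.Th
import Pool.Agent.Helper44.HL.Ker2

/-! # Hall gaps, N8c: constant sign on a long gap -/

set_option autoImplicit false

namespace Pool.Agent.Helper44.HL

open MeasureTheory Complex Set Filter Topology
open Pool.Agent.Helper69.HG Pool.Agent.HL9 Pool.Agent.Helper57.ED Pool.Agent.Helper49.HG

lemma int_w44 {s : ℝ} (hs : 0 < s) (m : ℕ) : Integrable (fun u : ℝ => s * kk (s * u) * (1 + |u|) ^ m) := by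
  have h := ((kk_int m).comp_mul_left' hs.ne').const_mul (s * (max 1 (1 / s)) ^ m)
  refine h.mono' ?_ (Eventually.of_forall fun u => ?_)
  · exact ((continuous_const.mul (kk_cont.comp (continuous_const.mul continuous_id))).mul
      ((continuous_const.add continuous_abs).pow m)).aestronglyMeasurable
  · have hk := kk_nonneg (s * u)
    rw [Real.norm_of_nonneg (by positivity)]
    have h1 : (1 + |u|) ^ m ≤ (max 1 (1 / s)) ^ m * (1 + |s * u|) ^ m := by
      rw [← mul_pow]
      apply pow_le_pow_left₀ (by positivity)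
      rw [abs_mul, abs_of_pos hs, mul_add, mul_one]
      have h2 : 1 ≤ max 1 (1 / s) := le_max_left _ _
      have h3 : 1 / s ≤ max 1 (1 / s) := le_max_right _ _
      have h4 : |u| ≤ max 1 (1 / s) * (s * |u|) := by
        calc |u| = 1 / s * (s * |u|) := by field_simp
          _ ≤ _ := by gcongr
      linarith
    calc s * kk (s * u) * (1 + |u|) ^ m ≤ s * kk (s * u) * ((max 1 (1 / s)) ^ m * (1 + |s * u|) ^ m) := by gcongr
      _ = _ := by ring

lemma int_wg44 {s : ℝ} (hs : 0 < s) {m : ℕ} {A : ℝ} {g : ℝ → ℝ} (hg : Continuous g) (hA : ∀ u, |g u| ≤ A * (1 + |u|) ^ m) :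
    Integrable (fun u : ℝ => s * kk (s * u) * g u) := by
  refine ((int_w44 hs m).const_mul A).mono' ?_ (Eventually.of_forall fun u => ?_)
  · exact ((continuous_const.mul (kk_cont.comp (continuous_const.mul continuous_id))).mul hg).aestronglyMeasurable
  · have hk := kk_nonneg (s * u)
    rw [norm_mul, Real.norm_of_nonneg (by positivity), Real.norm_eq_abs]
    calc s * kk (s * u) * |g u| ≤ s * kk (s * u) * (A * (1 + |u|) ^ m) := by
          apply mul_le_mul_of_nonneg_left (hA u) (by positivity)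
      _ = _ := by ring

/-- the real function with the same absolute value as `ze` -/
noncomputable def Zr (x : ℝ) : ℝ := (Complex.exp (I * th x) * ze x).re

lemma Zr_eq (x : ℝ) : ((Zr x : ℝ) : ℂ) = Complex.exp (I * th x) * ze x := by
  unfold Zr
  apply Complex.ext
  · simp
  · rw [Complex.ofReal_im]
    exact (Z_im x).symm

lemma abs_Zr (x : ℝ) : |Zr x| = ‖ze x‖ := by
  rw [← Real.norm_eq_abs, ← Complex.norm_real, Zr_eq, norm_mul, mul_comm I, Complex.norm_exp_ofReal_mul_I, one_mul]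

lemma continuous_ze44 : Continuous ze := by
  have : ze = fun t => riemannZeta (hl t) := by
    funext t; rfl
  rw [this]
  exact continuous_zeta_hl

lemma continuous_Zr : Continuous Zr := by
  unfold Zr
  exact Complex.continuous_re.comp ((Complex.continuous_exp.comp (continuous_const.mul
    (Complex.continuous_ofReal.comp continuous_th))).mul continuous_ze44)

lemma Zr_sign {a b : ℝ} (hz : ∀ u ∈ Set.Ioo a b, ze u ≠ 0) :
    ∃ σ : ℝ, (σ = 1 ∨ σ = -1) ∧ ∀ u ∈ Set.Ioo a b, σ * Zr u = ‖ze u‖ := by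
  have hne : ∀ u ∈ Set.Ioo a b, Zr u ≠ 0 := by
    intro u hu h0
    have h1 := abs_Zr u
    rw [h0, abs_zero] at h1
    exact hz u hu (norm_eq_zero.mp h1.symm)
  by_cases hpos : ∃ x ∈ Set.Ioo a b, 0 < Zr x
  · obtain ⟨x, hx, hx0⟩ := hpos
    refine ⟨1, Or.inl rfl, fun u hu => ?_⟩
    have hu0 : 0 < Zr u := by
      rcases lt_or_ge 0 (Zr u) with h | h
      · exact h
      · exfalso
        have h1 := isPreconnected_Ioo.intermediate_value hu hx continuous_Zr.continuousOn
        obtain ⟨y, hy, hy0⟩ := h1 ⟨h, hx0.le⟩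
        exact hne y hy hy0
    rw [one_mul, ← abs_Zr, abs_of_pos hu0]
  · push Not at hpos
    refine ⟨-1, Or.inr rfl, fun u hu => ?_⟩
    rw [← abs_Zr, abs_of_nonpos (hpos u hu)]
    ring

end Pool.Agent.Helper44.HL

namespace Pool.Agent.Helper49.HG

open MeasureTheory Complex Pool.Agent.Helper69.HG Pool.Agent.HL9 Pool.Agent.Helper44.HL Pool.Agent.Helper57.ED Filter

/-- N8c: constant sign on a long gap -/
theorem n8c {s H L₀ t M : ℝ} (hs : 0 < s) (hH : 0 < H) (ht : 0 < t) {P : ℝ → ℂ} (hP : Continuous P) (hM : ∀ u, ‖P u‖ ≤ M)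
    (hz : ∀ u ∈ Set.Ioo (t - H) (t + H), ze u ≠ 0) :
    ∫ u : ℝ, s * kk (s * u) * (‖ze (t - u)‖ * ‖P (t - u)‖ ^ 2) ≤
      ‖∫ u : ℝ, KL Qs s u * cexp (-(I * u * (L₀ / 2 : ℝ))) * (riemannZeta (hl (t - u)) * ((‖P (t - u)‖ ^ 2 : ℝ) : ℂ))‖ +
      2 * (∫ u in {u : ℝ | H ≤ |u|}, s * kk (s * u) * (‖ze (t - u)‖ * ‖P (t - u)‖ ^ 2)) +
      ∫ u : ℝ, s * kk (s * u) * (13 * (1 + u ^ 2) / t + |u| * |Real.log (t / (2 * Real.pi)) - L₀| / 2) *
        (‖ze (t - u)‖ * ‖P (t - u)‖ ^ 2) := by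
  obtain ⟨σ, hσ, hsign⟩ := Zr_sign hz
  have hσ1 : |σ| = 1 := by rcases hσ with h | h <;> rw [h] <;> norm_num
  set w : ℝ → ℝ := fun u => s * kk (s * u) with hw
  have hw0 : ∀ u, 0 ≤ w u := fun u => mul_nonneg hs.le (kk_nonneg _)
  have hwc : Continuous w := continuous_const.mul (kk_cont.comp (continuous_const.mul continuous_id))
  set F : ℝ → ℝ := fun u => ‖ze (t - u)‖ * ‖P (t - u)‖ ^ 2 with hF
  have hsub : Continuous fun u : ℝ => t - u := continuous_const.sub continuous_id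
  have hFc : Continuous F := ((continuous_ze44.comp hsub).norm).mul (((hP.comp hsub).norm).pow 2)
  have hF0 : ∀ u, 0 ≤ F u := fun u => mul_nonneg (norm_nonneg _) (sq_nonneg _)
  set A : ℝ := 5 * (1 + |t|) * M ^ 2 with hA
  have hM0 : 0 ≤ M := (norm_nonneg _).trans (hM 0)
  have hA0 : 0 ≤ A := by positivity
  have hFb : ∀ u, F u ≤ A * (1 + |u|) := by
    intro u
    have h1 : ‖ze (t - u)‖ ≤ 5 * (1 + |t - u|) := nzhl49 (t - u)
    have h2 : |t - u| ≤ |t| + |u| := abs_sub _ _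
    have h3 : ‖P (t - u)‖ ^ 2 ≤ M ^ 2 := pow_le_pow_left₀ (norm_nonneg _) (hM _) 2
    have h4 : 5 * (1 + |t - u|) ≤ 5 * (1 + |t|) * (1 + |u|) := by
      have := mul_nonneg (abs_nonneg t) (abs_nonneg u)
      nlinarith
    calc F u ≤ (5 * (1 + |t|) * (1 + |u|)) * M ^ 2 := by
          apply mul_le_mul (h1.trans h4) h3 (sq_nonneg _) (by positivity)
      _ = _ := by rw [hA]; ring
  have iF : Integrable (fun u => w u * F u) := by
    refine int_wg44 hs (m := 1) (A := A) hFc (fun u => ?_)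
    rw [abs_of_nonneg (hF0 u), pow_one]; exact hFb u
  -- the error term
  set E : ℝ → ℝ := fun u => 13 * (1 + u ^ 2) / t + |u| * |Real.log (t / (2 * Real.pi)) - L₀| / 2 with hE
  have hEc : Continuous E := by rw [hE]; fun_prop
  have hE0 : ∀ u, 0 ≤ E u := fun u => by rw [hE]; positivity
  set D : ℝ := |Real.log (t / (2 * Real.pi)) - L₀| with hD
  have hEb : ∀ u, E u ≤ (13 / t + D / 2) * (1 + |u|) ^ 2 := by
    intro u
    have h1 : u ^ 2 = |u| ^ 2 := (sq_abs u).symm
    have h2 := abs_nonneg u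
    have h3 : 0 ≤ D := abs_nonneg _
    have h4 : 0 ≤ 13 / t := by positivity
    have e : E u = 13 / t * (1 + |u| ^ 2) + D / 2 * |u| := by
      rw [hE]; simp only; rw [h1]; ring
    rw [e]
    have h5 : (1 + |u| ^ 2) ≤ (1 + |u|) ^ 2 := by nlinarith
    have h6 : |u| ≤ (1 + |u|) ^ 2 := by nlinarith
    calc 13 / t * (1 + |u| ^ 2) + D / 2 * |u| ≤ 13 / t * (1 + |u|) ^ 2 + D / 2 * (1 + |u|) ^ 2 := by gcongr
      _ = _ := by ring
  have iEF : Integrable (fun u => w u * (E u * F u)) := by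
    refine int_wg44 hs (m := 3) (A := (13 / t + D / 2) * A) (hEc.mul hFc) (fun u => ?_)
    rw [abs_of_nonneg (mul_nonneg (hE0 u) (hF0 u))]
    calc E u * F u ≤ ((13 / t + D / 2) * (1 + |u|) ^ 2) * (A * (1 + |u|)) :=
          mul_le_mul (hEb u) (hFb u) (hF0 u) (by positivity)
      _ = _ := by ring
  -- the real integrand
  set R : ℝ → ℝ := fun u => Zr (t - u) * ‖P (t - u)‖ ^ 2 with hR
  have hRc : Continuous R := (continuous_Zr.comp hsub).mul (((hP.comp hsub).norm).pow 2)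
  have hRF : ∀ u, |R u| = F u := by
    intro u
    rw [hR, hF]
    simp only
    rw [abs_mul, abs_Zr, abs_of_nonneg (sq_nonneg _)]
  have iR : Integrable (fun u => w u * R u) := by
    refine int_wg44 hs (m := 1) (A := A) hRc (fun u => ?_)
    rw [hRF u, pow_one]; exact hFb u
  -- the complex integrand
  set δ : ℝ → ℂ := fun u => cexp (I * ((th t - th (t - u) : ℝ) : ℂ)) * cexp (I * ((-(u * L₀ / 2) : ℝ) : ℂ)) - 1 with hδ
  have hδc : Continuous δ := by
    rw [hδ]
    have h1 : Continuous fun u : ℝ => th t - th (t - u) := continuous_const.sub (continuous_th.comp hsub)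
    have h2 : Continuous fun u : ℝ => -(u * L₀ / 2) := by fun_prop
    exact ((Complex.continuous_exp.comp (continuous_const.mul (Complex.continuous_ofReal.comp h1))).mul
      (Complex.continuous_exp.comp (continuous_const.mul (Complex.continuous_ofReal.comp h2)))).sub continuous_const
  have hδb : ∀ u, ‖δ u‖ ≤ E u := by
    intro u
    have h1 := th_shift ht (-u)
    rw [← sub_eq_add_neg, neg_sq] at h1
    have h2 := norm_exp_sub_exp (-(u * L₀ / 2)) (-u / 2 * Real.log (t / (2 * Real.pi)))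
    have e1 : |-(u * L₀ / 2) - -u / 2 * Real.log (t / (2 * Real.pi))| = |u| * D / 2 := by
      have : -(u * L₀ / 2) - -u / 2 * Real.log (t / (2 * Real.pi)) = u * (Real.log (t / (2 * Real.pi)) - L₀) / 2 := by ring
      rw [this, abs_div, abs_mul, abs_of_pos (by norm_num : (0:ℝ) < 2)]
    rw [e1] at h2
    have hu1 : ‖cexp (I * ((th (t - u) - th t : ℝ) : ℂ))‖ = 1 := by rw [mul_comm, Complex.norm_exp_ofReal_mul_I]
    have e2 : ‖δ u‖ = ‖cexp (I * ((-(u * L₀ / 2) : ℝ) : ℂ)) - cexp (I * ((th (t - u) - th t : ℝ) : ℂ))‖ := by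
      rw [← one_mul ‖δ u‖, ← hu1, ← norm_mul]
      congr 1
      rw [hδ]
      simp only
      rw [mul_sub, mul_one, ← mul_assoc, ← Complex.exp_add]
      have : I * ((th (t - u) - th t : ℝ) : ℂ) + I * ((th t - th (t - u) : ℝ) : ℂ) = 0 := by push_cast; ring
      rw [this, Complex.exp_zero, one_mul]
    rw [e2]
    have e3 : cexp (I * ((-(u * L₀ / 2) : ℝ) : ℂ)) - cexp (I * ((th (t - u) - th t : ℝ) : ℂ)) =
        (cexp (I * ((-(u * L₀ / 2) : ℝ) : ℂ)) - cexp (I * ((-u / 2 * Real.log (t / (2 * Real.pi)) : ℝ) : ℂ))) -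
        (cexp (I * ((th (t - u) - th t : ℝ) : ℂ)) - cexp (I * ((-u / 2 * Real.log (t / (2 * Real.pi)) : ℝ) : ℂ))) := by ring
    rw [e3]
    refine (norm_sub_le _ _).trans ?_
    rw [hE]
    simp only
    linarith
  have hkey : ∀ u : ℝ, cexp (I * th t) * (KL Qs s u * cexp (-(I * u * (L₀ / 2 : ℝ))) * (riemannZeta (hl (t - u)) * ((‖P (t - u)‖ ^ 2 : ℝ) : ℂ))) =
      ((w u * R u : ℝ) : ℂ) + (w u : ℂ) * (δ u * ((R u : ℝ) : ℂ)) := by
    intro u
    have h1 : KL Qs s u = ((w u : ℝ) : ℂ) := by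
      unfold KL
      rw [Kq_Qs, hw]
      push_cast
      ring
    have h2 : riemannZeta (hl (t - u)) = cexp (-(I * th (t - u))) * ((Zr (t - u) : ℝ) : ℂ) := by
      rw [Zr_eq, ← mul_assoc, ← Complex.exp_add]
      have : -(I * (th (t - u) : ℂ)) + I * th (t - u) = 0 := by ring
      rw [this, Complex.exp_zero, one_mul]
      rfl
    rw [h1, h2]
    have e1 : cexp (I * th t) * cexp (-(I * u * (L₀ / 2 : ℝ))) * cexp (-(I * th (t - u))) = 1 + δ u := by
      rw [hδ]
      simp only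
      rw [← Complex.exp_add, ← Complex.exp_add, ← Complex.exp_add, add_sub_cancel]
      congr 1
      push_cast
      ring
    have e2 : ((R u : ℝ) : ℂ) = ((Zr (t - u) : ℝ) : ℂ) * ((‖P (t - u)‖ ^ 2 : ℝ) : ℂ) := by
      rw [hR]; push_cast; ring
    rw [e2]
    push_cast at e1 e2 ⊢
    rw [e2]
    linear_combination ((w u : ℂ) * ((Zr (t - u) : ℂ)) * (‖P (t - u)‖ : ℂ) ^ 2) * e1
  have iδ : Integrable (fun u => (w u : ℂ) * (δ u * ((R u : ℝ) : ℂ))) := by
    refine iEF.mono' ((Complex.continuous_ofReal.comp hwc).mul (hδc.mul (Complex.continuous_ofReal.comp hRc))).aestronglyMeasurable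
      (Eventually.of_forall fun u => ?_)
    rw [norm_mul, norm_mul, Complex.norm_real, Complex.norm_real, Real.norm_of_nonneg (hw0 u), Real.norm_eq_abs, hRF]
    exact mul_le_mul_of_nonneg_left (mul_le_mul_of_nonneg_right (hδb u) (hF0 u)) (hw0 u)
  have iRc : Integrable (fun u => ((w u * R u : ℝ) : ℂ)) := iR.ofReal
  set J : ℂ := ∫ u : ℝ, KL Qs s u * cexp (-(I * u * (L₀ / 2 : ℝ))) * (riemannZeta (hl (t - u)) * ((‖P (t - u)‖ ^ 2 : ℝ) : ℂ)) with hJ
  have hJ1 : cexp (I * th t) * J = ((∫ u, w u * R u : ℝ) : ℂ) + ∫ u, (w u : ℂ) * (δ u * ((R u : ℝ) : ℂ)) := by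
    rw [hJ, ← integral_const_mul]
    simp only [hkey]
    rw [integral_add iRc iδ, integral_complex_ofReal]
  have hn : ‖cexp (I * th t)‖ = 1 := by rw [mul_comm, Complex.norm_exp_ofReal_mul_I]
  have hJ2 : ‖J‖ = ‖((∫ u, w u * R u : ℝ) : ℂ) + ∫ u, (w u : ℂ) * (δ u * ((R u : ℝ) : ℂ))‖ := by
    rw [← hJ1, norm_mul, hn, one_mul]
  have hJ3 : ‖∫ u, (w u : ℂ) * (δ u * ((R u : ℝ) : ℂ))‖ ≤ ∫ u, w u * (E u * F u) := by
    refine (norm_integral_le_integral_norm _).trans (integral_mono iδ.norm iEF (fun u => ?_))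
    simp only
    rw [norm_mul, norm_mul, Complex.norm_real, Complex.norm_real, Real.norm_of_nonneg (hw0 u), Real.norm_eq_abs, hRF]
    exact mul_le_mul_of_nonneg_left (mul_le_mul_of_nonneg_right (hδb u) (hF0 u)) (hw0 u)
  have hJ4 : |∫ u, w u * R u| ≤ ‖J‖ + ∫ u, w u * (E u * F u) := by
    have h1 : ((∫ u, w u * R u : ℝ) : ℂ) = (((∫ u, w u * R u : ℝ) : ℂ) + ∫ u, (w u : ℂ) * (δ u * ((R u : ℝ) : ℂ))) -
        ∫ u, (w u : ℂ) * (δ u * ((R u : ℝ) : ℂ)) := by ring
    rw [← Real.norm_eq_abs, ← Complex.norm_real, h1]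
    refine (norm_sub_le _ _).trans ?_
    rw [← hJ2]
    linarith
  -- sign
  have hms : MeasurableSet {u : ℝ | H ≤ |u|} := measurableSet_le measurable_const continuous_abs.measurable
  have hpt : ∀ u, w u * F u ≤ σ * (w u * R u) + 2 * ({u : ℝ | H ≤ |u|}.indicator (fun u => w u * F u) u) := by
    intro u
    by_cases hu : H ≤ |u|
    · rw [Set.indicator_of_mem (show u ∈ {u : ℝ | H ≤ |u|} from hu)]
      have h1 : |σ * (w u * R u)| = w u * F u := by
        rw [abs_mul, abs_mul, hσ1, hRF, abs_of_nonneg (hw0 u), one_mul]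
      have h2 := neg_abs_le (σ * (w u * R u))
      rw [h1] at h2
      have := mul_nonneg (hw0 u) (hF0 u)
      linarith
    · rw [Set.indicator_of_notMem (show u ∉ {u : ℝ | H ≤ |u|} from hu), mul_zero, add_zero]
      have hu2 := abs_lt.mp (not_le.mp hu)
      have h1 := hsign (t - u) ⟨by linarith [hu2.2], by linarith [hu2.1]⟩
      have h2 : σ * (w u * R u) = w u * F u := by
        rw [hR, hF]
        simp only
        rw [← h1]
        ring
      exact h2.ge
  have hI : ∫ u, w u * F u ≤ σ * (∫ u, w u * R u) + 2 * (∫ u in {u : ℝ | H ≤ |u|}, w u * F u) := by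
    have h1 : Integrable (fun u => σ * (w u * R u)) := iR.const_mul σ
    have h2 : Integrable (fun u => 2 * ({u : ℝ | H ≤ |u|}.indicator (fun u => w u * F u) u)) :=
      (iF.indicator hms).const_mul 2
    have h3 := integral_mono iF (h1.add h2) hpt
    simp only [Pi.add_apply] at h3
    rw [integral_add h1 h2, integral_const_mul, integral_const_mul, integral_indicator hms] at h3
    exact h3
  have hσI : σ * (∫ u, w u * R u) ≤ |∫ u, w u * R u| := by
    have := le_abs_self (σ * (∫ u, w u * R u))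
    rwa [abs_mul, hσ1, one_mul] at this
  have hfin : ∫ u : ℝ, s * kk (s * u) * (13 * (1 + u ^ 2) / t + |u| * |Real.log (t / (2 * Real.pi)) - L₀| / 2) *
        (‖ze (t - u)‖ * ‖P (t - u)‖ ^ 2) = ∫ u, w u * (E u * F u) := by
    apply integral_congr_ae
    filter_upwards with u
    simp only [hw, hE, hF, hD]
    ring
  rw [hfin]
  linarith

end Pool.Agent.Helper49.HG
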